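import Mathlib

namespace Pool.Agent.Results.MP_f9323a_an.Centered

open Finset Real MeasureTheory

/-- the normalised sum over the window of radius `r` centred at `n` -/
noncomputable def A (β : ℝ) (f : ℤ → ℝ) (n : ℤ) (r : ℕ) : ℝ :=
  1 / (2 * r + 1 : ℝ) ^ (1 - β) * ∑ k ∈ Icc (-r : ℤ) r, |f (n + k)|

/-- the discrete centered fractional maximal function -/
noncomputable def M (β : ℝ) (f : ℤ → ℝ) (n : ℤ) : ℝ := ⨆ r : ℕ, A β f n r

variable {β : ℝ} {f : ℤ → ℝ}

noncomputable def S (f : ℤ → ℝ) (x : ℤ) (r : ℕ) : ℝ := ∑ m ∈ Icc (x - r) (x + r), |f m|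

lemma A_eq (x : ℤ) (r : ℕ) : A β f x r = S f x r / (2 * r + 1 : ℝ) ^ (1 - β) := by
  rw [A, one_div_mul_eq_div, S]
  congr 1
  refine sum_bij (fun k _ => x + k) (fun k => ?_) (fun _ _ _ _ => add_left_cancel)
    (fun m hm => ⟨m - x, ?_, by simp⟩) fun _ _ => rfl
  all_goals simp only [mem_Icc] at *; omega

lemma S0 (x : ℤ) (r : ℕ) : 0 ≤ S f x r := sum_nonneg fun _ _ => abs_nonneg _

lemma S_le {x y : ℤ} {r R : ℕ} (h : |x - y| + r ≤ R) : S f x r ≤ S f y R :=
  sum_le_sum_of_subset_of_nonneg (Icc_subset_Icc (by cases abs_cases (x - y) <;> omega)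
    (by cases abs_cases (x - y) <;> omega)) fun _ _ _ => abs_nonneg _

lemma bern (h0 : 0 < β) (h1 : β < 1) (r : ℕ) : (2 * (r + 1 : ℕ) + 1 : ℝ) ^ (1 - β) ≤
    (2 * r + 1 : ℝ) ^ (1 - β) * (1 + (1 - β) * (2 / (2 * r + 1))) := by
  have e : (2 * (r + 1 : ℕ) + 1 : ℝ) = (2 * r + 1) * (1 + 2 / (2 * r + 1)) := by
    push_cast; field_simp; ring
  rw [e, mul_rpow (by positivity) (by positivity)]
  exact mul_le_mul_of_nonneg_left (rpow_one_add_le_one_add_mul_self
    (le_trans (by norm_num) (by positivity : (0 : ℝ) ≤ _)) (by linarith) (by linarith))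
    (by positivity)

lemma shift (h0 : 0 < β) (h1 : β < 1) {x y : ℤ} (h : |x - y| ≤ 1) (r : ℕ) :
    A β f x r ≤ A β f y (r + 1) * (1 + 2 / (2 * r + 1)) := by
  have h2 := bern h0 h1 r
  have h3 : (0 : ℝ) < 2 / (2 * r + 1) := by positivity
  rw [A_eq, A_eq, div_mul_eq_mul_div, div_le_div_iff₀ (by positivity) (by positivity), mul_assoc]
  refine mul_le_mul (S_le (by push_cast; omega)) (h2.trans ?_) (by positivity) (S0 _ _)
  rw [mul_comm]
  gcongr
  nlinarith

lemma A0 (x : ℤ) (r : ℕ) : 0 ≤ A β f x r := by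
  rw [A_eq]; exact div_nonneg (S0 _ _) (by positivity)

lemma bdd (h0 : 0 < β) (h1 : β < 1) {y : ℤ} (h : BddAbove (Set.range (A β f y))) (x : ℤ) :
    BddAbove (Set.range (A β f x)) := by
  have key : ∀ x y : ℤ, |x - y| ≤ 1 → BddAbove (Set.range (A β f y)) →
      BddAbove (Set.range (A β f x)) := fun x y hxy ⟨c, hc⟩ => ⟨c * 3, by
    rintro _ ⟨r, rfl⟩
    refine (shift h0 h1 hxy r).trans (mul_le_mul (hc ⟨_, rfl⟩) ?_ (by positivity)
      ((A0 _ _).trans (hc ⟨0, rfl⟩)))
    have : (2 : ℝ) / (2 * r + 1) ≤ 2 := div_le_self two_pos.le (by simp)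
    linarith⟩
  induction x using Int.inductionOn' (b := y) with
  | zero => exact h
  | succ k _ ih => exact key _ _ (by simp) ih
  | pred k _ ih => exact key _ _ (by simp) ih

lemma attained (h0 : 0 < β) (h1 : β < 1) (hb : ∀ x, BddAbove (Set.range (A β f x))) {x y : ℤ}
    (h : |x - y| ≤ 1) (hlt : M β f y < M β f x) : ∃ r, ∀ s, A β f x s ≤ A β f x r := by
  obtain ⟨c, hc1, hc2⟩ := exists_between hlt
  have ht : Filter.Tendsto (fun s : ℕ => M β f y * (1 + 2 / (2 * s + 1))) Filter.atTop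
      (nhds (M β f y * (1 + 0))) :=
    (Filter.Tendsto.const_add _ (tendsto_const_nhds.div_atTop (Filter.tendsto_atTop_add_const_right
      _ _ (tendsto_natCast_atTop_atTop.const_mul_atTop two_pos)))).const_mul _
  obtain ⟨N, hN⟩ := Filter.eventually_atTop.1 (ht.eventually_le_const (by simpa using hc1))
  have h2 : ∀ s, N ≤ s → A β f x s ≤ c := fun s hs => (shift h0 h1 h s).trans
    ((mul_le_mul_of_nonneg_right (le_ciSup (hb y) _) (by positivity)).trans (hN s hs))
  obtain ⟨s1, hs1⟩ := exists_lt_of_lt_ciSup hc2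
  have h3 : s1 ∈ range N := mem_range.2 (not_le.1 fun h => (h2 s1 h).not_gt hs1)
  obtain ⟨r, -, hr⟩ := exists_max_image (range N) (A β f x) ⟨s1, h3⟩
  exact ⟨r, fun s => (lt_or_ge s N).elim (fun h => hr s (mem_range.2 h))
    fun h => (h2 s h).trans (hs1.le.trans (hr s1 h3))⟩

lemma overlap {ι : Type} (F : Finset ι) (w lo hi : ι → ℝ) (hl : ∀ i ∈ F, lo i ≤ hi i)
    (hw : ∀ i ∈ F, 0 ≤ w i) (C : ℝ)
    (h : ∀ t, ∑ i ∈ F, (Set.Icc (lo i) (hi i)).indicator (fun _ => w i) t ≤ C) (u v : ℝ) :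
    ∑ i ∈ F, w i * |max (lo i) (min v (hi i)) - max (lo i) (min u (hi i))| ≤ C * |v - u| := by
  wlog huv : u ≤ v generalizing u v
  · simpa only [abs_sub_comm] using this v u (not_le.1 huv).le
  have hi' : ∀ i ∈ F, IntegrableOn ((Set.Icc (lo i) (hi i)).indicator fun _ => w i)
      (Set.Icc u v) := fun i _ => (integrable_const _).indicator measurableSet_Icc
  have := integral_mono (integrable_finsetSum _ hi') (integrable_const C) h
  rw [integral_finsetSum _ hi'] at this
  refine le_trans (sum_le_sum fun i hi => ?_) (this.trans_eq ?_)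
  · rw [integral_indicator measurableSet_Icc, setIntegral_const, measureReal_restrict_apply
      measurableSet_Icc, Set.Icc_inter_Icc, volume_real_Icc, smul_eq_mul, mul_comm]
    refine mul_le_mul_of_nonneg_right ?_ (hw i hi)
    have := hl i hi
    rw [abs_of_nonneg (sub_nonneg.2 (max_le_max le_rfl (min_le_min huv le_rfl)))]
    simp only [max_def, min_def]
    split_ifs <;> linarith
  · simp [huv, abs_of_nonneg, mul_comm]

lemma tele (c : ℤ → ℝ) {i j : ℤ} (h : i ≤ j) : |c j - c i| ≤ ∑ e ∈ Ico i j, |c (e + 1) - c e| := by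
  induction j, h using Int.leInduction with
  | base => simp
  | succ j h ih =>
    rw [← insert_Ico_right_eq_Ico_add_one h, sum_insert (by simp)]
    exact (abs_sub_le _ (c j) _).trans (by linarith)

lemma osc (h0 : 0 < β) (h1 : β < 1) {x : ℤ} {r : ℕ} (h : ∀ s, A β f x s ≤ A β f x r) {a : ℝ}
    (ha : a = S f x r / (2 * r + 1)) : β * a ≤ ∑ e ∈ Ico (x - r - 1) (x + r + 1),
      |max ((1 - β) * a) (min |f (e + 1)| a) - max ((1 - β) * a) (min |f e| a)| := by
  have a0 : 0 ≤ a := ha ▸ div_nonneg (S0 _ _) (by positivity)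
  have h2 : |f (x - r - 1)| + |f (x + r + 1)| ≤ 2 * ((1 - β) * a) := by
    have h3 := h (r + 1)
    rw [A_eq, A_eq, div_le_div_iff₀ (by positivity) (by positivity)] at h3
    have h4 := h3.trans (mul_le_mul_of_nonneg_left (bern h0 h1 r) (S0 _ _))
    rw [mul_left_comm, mul_comm, mul_le_mul_iff_right₀ (by positivity)] at h4
    have e : S f x (r + 1) = |f (x - r - 1)| + (|f (x + r + 1)| + S f x r) := by
      rw [S, S, ← sum_insert (f := fun m => |f m|) (by simp),
        ← sum_insert (f := fun m => |f m|) (by simp; omega)]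
      congr 1
      ext m
      simp only [mem_Icc, mem_insert]
      push_cast
      omega
    have e2 : S f x r * ((1 - β) * (2 / (2 * r + 1))) = 2 * ((1 - β) * a) := by rw [ha]; ring
    linarith
  obtain ⟨m, hm, h3⟩ : ∃ m ∈ Icc (x - r) (x + r), a ≤ |f m| := by
    refine exists_le_of_sum_le (nonempty_Icc.2 (by omega)) ?_
    rw [sum_const, Int.card_Icc, show (x + r + 1 - (x - r)).toNat = 2 * r + 1 by omega,
      nsmul_eq_mul, ha]
    push_cast
    exact (mul_div_cancel₀ _ (by positivity)).le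
  rw [mem_Icc] at hm
  have h4 : (1 - β) * a ≤ a := by nlinarith
  have key : ∀ k, |f k| ≤ (1 - β) * a → β * a =
      |max ((1 - β) * a) (min |f m| a) - max ((1 - β) * a) (min |f k| a)| := fun k hk => by
    rw [min_eq_right h3, max_eq_right h4, max_eq_left (min_le_of_left_le hk),
      abs_of_nonneg (sub_nonneg.2 h4)]
    ring
  rcases le_total |f (x - r - 1)| |f (x + r + 1)| with h5 | h5
  · rw [key (x - r - 1) (by linarith)]
    exact (tele (fun k => max ((1 - β) * a) (min |f k| a)) (by omega)).trans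
      (sum_le_sum_of_subset_of_nonneg (Ico_subset_Ico le_rfl (by omega)) fun _ _ _ => abs_nonneg _)
  · rw [key (x + r + 1) (by linarith), abs_sub_comm]
    exact (tele (fun k => max ((1 - β) * a) (min |f k| a)) (by omega)).trans
      (sum_le_sum_of_subset_of_nonneg (Ico_subset_Ico (by omega) le_rfl) fun _ _ _ => abs_nonneg _)

lemma radii (h0 : 0 < β) (h1 : β < 1) {x y : ℤ} {r s : ℕ} (h : ∀ s, A β f x s ≤ A β f x r)
    (hrs : r ≤ s) (hxy : |x - y| ≤ r + s + 2) {a b : ℝ} (ha : a = S f x r / (2 * r + 1))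
    (hb : b = S f y s / (2 * s + 1)) (b0 : 0 < b) (hab : (1 - β) * a ≤ b) :
    (2 * s + 1 : ℝ) ≤ (5 / (1 - β)) ^ β⁻¹ * (2 * r + 1) := by
  have p0 : 0 < 1 - β := by linarith
  have e : ∀ (z : ℤ) (r : ℕ), S f z r / (2 * r + 1 : ℝ) ^ (1 - β) =
      S f z r / (2 * r + 1) * (2 * r + 1) ^ β := fun z r => by
    rw [rpow_sub (by positivity), rpow_one]
    field_simp
  have h2 : S f y s / (2 * s + 1 : ℝ) ^ (1 - β) ≤ 5 * A β f x (3 * s + 2) := by
    rw [A_eq, ← mul_div_assoc, div_le_div_iff₀ (by positivity) (by positivity), mul_comm 5,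
      mul_assoc]
    refine mul_le_mul (S_le (by rw [abs_sub_comm]; push_cast; omega)) ?_ (by positivity) (S0 _ _)
    refine le_trans (rpow_le_rpow (y := 5 * (2 * s + 1)) (by positivity) (by
      push_cast; linarith [(Nat.cast_nonneg s : (0 : ℝ) ≤ s)]) p0.le) ?_
    rw [mul_rpow (by norm_num) (by positivity)]
    gcongr
    exact rpow_le_self_of_one_le (by norm_num) (by linarith)
  have h3 := h (3 * s + 2)
  rw [A_eq x r, e, ← ha] at h3
  rw [e, ← hb] at h2
  have h4 : (2 * s + 1 : ℝ) ^ β ≤ 5 / (1 - β) * (2 * r + 1) ^ β := by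
    rw [div_mul_eq_mul_div, le_div_iff₀ p0, ← mul_le_mul_iff_right₀ b0]
    nlinarith [mul_le_mul_of_nonneg_right hab (show 0 ≤ (2 * r + 1 : ℝ) ^ β by positivity),
      mul_le_mul_of_nonneg_right (h2.trans (mul_le_mul_of_nonneg_left h3 (by norm_num))) p0.le]
  have := rpow_le_rpow (by positivity) h4 (inv_pos.2 h0).le
  rwa [mul_rpow (by positivity) (by positivity), rpow_rpow_inv (by positivity) h0.ne',
    rpow_rpow_inv (by positivity) h0.ne'] at this

lemma main (h0 : 0 < β) (h1 : β < 1) (hf : Summable fun n => |f (n + 1) - f n|) (F : Finset ℤ)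
    (r : ℤ → ℕ) (h : ∀ x ∈ F, ∀ s, A β f x s ≤ A β f x (r x)) (a : ℤ → ℝ)
    (ha : ∀ x, a x = S f x (r x) / (2 * r x + 1)) (a0 : ∀ x ∈ F, 0 < a x) :
    ∑ x ∈ F, 1 / (2 * r x + 1) * (β * a x) ≤
      3 * (5 / (1 - β)) ^ β⁻¹ * ∑' n, |f (n + 1) - f n| := by
  classical
  set K := (5 / (1 - β)) ^ β⁻¹
  have K1 : 1 ≤ K := one_le_rpow ((one_le_div (by linarith)).2 (by linarith)) (inv_pos.2 h0).le
  let I : ℤ → Finset ℤ := fun x => Ico (x - r x - 1) (x + r x + 1)
  refine (sum_le_sum fun x hx => mul_le_mul_of_nonneg_left (osc h0 h1 (h x hx) (ha x))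
    (by positivity)).trans ?_
  simp only [mul_sum]
  rw [sum_comm' (t' := F.biUnion I) (s' := fun e => F.filter fun x => e ∈ I x) (by
    simp only [mem_biUnion, mem_filter]; tauto)]
  refine le_trans (sum_le_sum fun e _ => (overlap _ _ _ _ (fun x hx => ?_) (fun _ _ => by
    positivity) (3 * K) (fun t => ?_) _ _).trans (mul_le_mul_of_nonneg_left
    (abs_abs_sub_abs_le_abs_sub _ _) (by positivity))) ?_
  · nlinarith [a0 x (mem_filter.1 hx).1]
  · simp only [Set.indicator_apply, ← sum_filter]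
    set G := (F.filter fun x => e ∈ I x).filter fun x => t ∈ Set.Icc ((1 - β) * a x) (a x)
    rcases G.eq_empty_or_nonempty with hG | hG
    · rw [hG, sum_empty]; positivity
    obtain ⟨x, hx, h2⟩ := exists_min_image G r hG
    have h3 : G ⊆ Icc (e - ⌊K * (2 * r x + 1)⌋₊) (e + ⌊K * (2 * r x + 1)⌋₊) := fun y hy => by
      have h3 := h2 y hy
      simp only [G, mem_filter, I, mem_Ico, Set.mem_Icc] at hx hy
      have := radii h0 h1 (h x hx.1.1) h3 (y := y) (abs_le.2 ⟨by omega, by omega⟩) (ha x) (ha y)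
        (a0 y hy.1.1) (hx.2.1.trans hy.2.2)
      have : 2 * r y + 1 ≤ ⌊K * (2 * r x + 1)⌋₊ := Nat.le_floor (by exact_mod_cast this)
      rw [mem_Icc]
      omega
    have h4 := card_le_card h3
    rw [Int.card_Icc] at h4
    have h5 : (#G : ℝ) ≤ 2 * ⌊K * (2 * r x + 1)⌋₊ + 1 := by
      generalize ⌊K * (2 * r x + 1)⌋₊ = N at h4 ⊢
      exact_mod_cast (by omega)
    have h6 := Nat.floor_le (show 0 ≤ K * (2 * r x + 1) by positivity)
    refine (sum_le_card_nsmul _ _ (1 / (2 * r x + 1 : ℝ)) fun y hy => by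
      gcongr; exact h2 y hy).trans ?_
    rw [nsmul_eq_mul, mul_one_div, div_le_iff₀ (by positivity)]
    nlinarith [(Nat.cast_nonneg (r x) : (0 : ℝ) ≤ r x)]
  · rw [← mul_sum]
    exact mul_le_mul_of_nonneg_left (hf.sum_le_tsum _ fun _ _ => abs_nonneg _) (by positivity)

theorem result (β : ℝ) (h0 : 0 < β) (h1 : β < 1) : ∃ C : ℝ, ∀ f : ℤ → ℝ,
    Summable (fun n => |f (n + 1) - f n|) → (∃ n, BddAbove (Set.range (A β f n))) →
      (∀ n, BddAbove (Set.range (A β f n))) ∧
      Summable (fun n => |M β f (n + 1) - M β f n| ^ (1 / (1 - β))) ∧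
      (∑' n, |M β f (n + 1) - M β f n| ^ (1 / (1 - β))) ^ (1 - β) ≤
        C * ∑' n, |f (n + 1) - f n| := by
  classical
  set K := (5 / (1 - β)) ^ β⁻¹
  have p0 : 0 < 1 - β := by linarith
  have K0 : 0 < K := by positivity
  refine ⟨(6 * K) ^ (1 - β) * (2 / β), fun f hf ⟨y, hy⟩ => ?_⟩
  have hb := bdd h0 h1 hy
  set V := ∑' n, |f (n + 1) - f n|
  have V0 : 0 ≤ V := tsum_nonneg fun _ => abs_nonneg _
  set q := 1 / (1 - β) with hq
  have q1 : 1 < q := one_lt_one_div p0 (by linarith)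
  let P : ℤ → Prop := fun x => ∃ r, ∀ s, A β f x s ≤ A β f x r
  choose! r hr using fun x (h : P x) => h
  let a : ℤ → ℝ := fun x => S f x (r x) / (2 * r x + 1)
  have a0 : ∀ x, 0 ≤ a x := fun x => div_nonneg (S0 _ _) (by positivity)
  let g : ℤ → ℝ := fun x => if P x ∧ 0 < a x then (2 * a x) ^ q / (2 * r x + 1) else 0
  have g0 : ∀ x, 0 ≤ g x := fun x => by
    have := a0 x
    simp only [g]; split_ifs <;> positivity
  have h2 : ∀ x y, |x - y| ≤ 1 → M β f y ≤ M β f x → (M β f x - M β f y) ^ q ≤ g x := by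
    intro x y hxy h
    rcases h.eq_or_lt with h | h
    · rw [h, sub_self, zero_rpow (by linarith)]
      exact g0 x
    have hP : P x := attained h0 h1 hb hxy h
    have e : M β f x = A β f x (r x) := le_antisymm (ciSup_le (hr x hP)) (le_ciSup (hb x) _)
    have h3 : M β f x - M β f y ≤ 2 * a x / (2 * r x + 1) ^ (1 - β) := by
      have h3 := (shift h0 h1 hxy (r x)).trans
        (mul_le_mul_of_nonneg_right (le_ciSup (hb y) _) (by positivity))
      have h4 := mul_le_mul_of_nonneg_right h.le (show (0 : ℝ) ≤ 2 / (2 * r x + 1) by positivity)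
      have : 2 * a x / (2 * r x + 1) ^ (1 - β) = A β f x (r x) * (2 / (2 * r x + 1)) := by
        rw [A_eq]; simp only [a]; ring
      rw [this, ← e]
      rw [← e] at h3
      simp only [M] at *
      linarith
    have h4 : 0 < a x := (a0 x).lt_of_ne fun h5 => by
      rw [← h5] at h3; simp at h3; linarith
    simp only [g, hP, h4, and_self, if_true]
    refine (rpow_le_rpow (by linarith) h3 (by linarith)).trans_eq ?_
    rw [div_rpow (by positivity) (by positivity), hq, one_div, rpow_rpow_inv (by positivity) p0.ne']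
  have h3 : ∀ F : Finset ℤ, ∑ x ∈ F, g x ≤ 3 * K * (2 / β * V) ^ q := fun F => by
    simp only [g, ← sum_filter]
    have h4 := main h0 h1 hf (F.filter fun x => P x ∧ 0 < a x) r
      (fun x hx => hr x (mem_filter.1 hx).2.1) a (fun _ => rfl) fun x hx => (mem_filter.1 hx).2.2
    have h5 := mul_le_mul_of_nonneg_left h4 (show 0 ≤ (2 / β * V) ^ (q - 1) * (2 / β) by positivity)
    refine le_trans ?_ (h5.trans_eq ?_)
    · rw [mul_sum]
      refine sum_le_sum fun x hx => ?_
      obtain ⟨-, h6, h7⟩ := mem_filter.1 hx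
      have h8 : β * a x ≤ V := by
        refine (osc h0 h1 (hr x h6) rfl).trans (le_trans (sum_le_sum fun e _ => ?_)
          (hf.sum_le_tsum _ fun _ _ => abs_nonneg _))
        refine (abs_max_sub_max_le_max _ _ _ _).trans (max_le (by simp) ?_)
        refine (abs_min_sub_min_le_max _ _ _ _).trans (max_le ?_ (by simp))
        exact abs_abs_sub_abs_le_abs_sub _ _
      have h9 : (2 * a x) ^ (q - 1) ≤ (2 / β * V) ^ (q - 1) := rpow_le_rpow (by positivity) (by
        rw [div_mul_eq_mul_div, le_div_iff₀ h0]; linarith) (by linarith)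
      rw [← sub_add_cancel q 1, rpow_add_one (by positivity), add_sub_cancel_right]
      refine (div_le_div_of_nonneg_right (mul_le_mul_of_nonneg_right h9 (by positivity))
        (by positivity)).trans_eq ?_
      field_simp
    · conv_rhs => rw [← sub_add_cancel q 1, rpow_add_one' (by positivity) (by linarith)]
      ring
  have h4 : ∀ F : Finset ℤ, ∑ n ∈ F, |M β f (n + 1) - M β f n| ^ q ≤ 6 * K * (2 / β * V) ^ q := by
    intro F
    have h5 := h3 (F.map (addRightEmbedding 1))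
    rw [sum_map] at h5
    have : ∑ n ∈ F, |M β f (n + 1) - M β f n| ^ q ≤ ∑ n ∈ F, (g (n + 1) + g n) :=
      sum_le_sum fun n _ => by
        rcases le_total (M β f n) (M β f (n + 1)) with h | h
        · rw [abs_of_nonneg (sub_nonneg.2 h)]
          exact (h2 _ _ (by simp) h).trans (le_add_of_nonneg_right (g0 _))
        · rw [abs_sub_comm, abs_of_nonneg (sub_nonneg.2 h)]
          exact (h2 _ _ (by simp) h).trans (le_add_of_nonneg_left (g0 _))
    rw [sum_add_distrib] at this
    simp only [addRightEmbedding_apply] at h5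
    linarith [h3 F]
  refine ⟨hb, summable_of_sum_le (fun _ => by positivity) h4, (rpow_le_rpow (tsum_nonneg fun _ =>
    by positivity) (Real.tsum_le_of_sum_le (fun _ => by positivity) h4) p0.le).trans_eq ?_⟩
  rw [mul_rpow (by positivity) (by positivity), hq, one_div, rpow_inv_rpow (by positivity) p0.ne',
    mul_assoc]

end Pool.Agent.Results.MP_f9323a_an.Centered
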